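import Pool.Agent.N175.BG.Defs

set_option autoImplicit false

/-!
# Project BG (helper175), part VDM (helper424): points of `x + y = 1` which are close to each other
are few
-/

namespace Pool.Agent.N424.BG

open NumberField IsDedekindDomain Finset Pool.Agent.H691R3 Pool.Agent.TH876.Loc

set_option linter.unusedSectionVars false

variable {K : Type} [Field K] [NumberField K]

/-- the constant in the inequality for sums of `n` terms -/
noncomputable def kv (n : ℕ) (v : Pl K) : ℝ :=
  Sum.elim (fun _ : InfinitePlace K => (n : ℝ)) (fun _ : HeightOneSpectrum (𝓞 K) => 1) v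

theorem kv_pos {n : ℕ} (hn : 0 < n) (v : Pl K) : 0 < kv n v := by
  rcases v with w | v
  · show (0 : ℝ) < n
    exact_mod_cast hn
  · exact one_pos

theorem av_sum_le (v : Pl K) {ι : Type*} (s : Finset ι) (f : ι → K) (B : ℝ) (hB : 0 ≤ B)
    (h : ∀ i ∈ s, av v (f i) ≤ B) : av v (∑ i ∈ s, f i) ≤ kv s.card v * B := by
  rcases v with w | v
  · show w.1 (∑ i ∈ s, f i) ≤ (s.card : ℝ) * B
    refine (w.1.sum_le _ _).trans ?_
    refine (Finset.sum_le_sum h).trans ?_
    rw [Finset.sum_const, nsmul_eq_mul]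
  · show fv v (∑ i ∈ s, f i) ≤ 1 * B
    rw [one_mul]
    exact fv_sum_le v s f B hB h

theorem sum_kv (V : Finset (Pr K)) (n : ℕ) :
    ∑ v ∈ Spl V, mt v * Real.log (kv n v) = dK K * Real.log n := by
  rw [sum_Spl]
  have h1 : ∑ v ∈ V, mt (Sum.inr v : Pl K) * Real.log (kv n (Sum.inr v : Pl K)) = 0 := by
    refine Finset.sum_eq_zero fun v _ => ?_
    show 1 * Real.log 1 = 0
    rw [Real.log_one, mul_zero]
  rw [h1, add_zero]
  unfold dK
  rw [Finset.sum_mul]
  rfl

/-- the product of the differences -/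
def Dd {m : ℕ} (x : Fin m → K) : K := ∏ i : Fin m, ∏ j ∈ Finset.Ioi i, (x j - x i)

theorem Dd_ne {m : ℕ} {x : Fin m → K} (hx : Function.Injective x) : Dd x ≠ 0 := by
  unfold Dd
  refine Finset.prod_ne_zero_iff.2 fun i _ => Finset.prod_ne_zero_iff.2 fun j hj => ?_
  rw [Finset.mem_Ioi] at hj
  exact sub_ne_zero.2 fun h => hj.ne' (hx h)

theorem det_av (v : Pl K) {m : ℕ} (x : Fin m → K) (a b : Fin 3) (hab : a ≠ b) :
    av v ((Matrix.projVandermonde (fun i => L a (x i)) (fun i => L b (x i))).det) =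
      av v (Dd x) := by
  rw [Matrix.det_projVandermonde]
  unfold Dd
  rw [map_prod, map_prod]
  refine Finset.prod_congr rfl fun i _ => ?_
  rw [map_prod, map_prod]
  refine Finset.prod_congr rfl fun j _ => ?_
  have key : L a (x j) * L b (x i) - L a (x i) * L b (x j) = x j - x i ∨
      L a (x j) * L b (x i) - L a (x i) * L b (x j) = -(x j - x i) := by
    fin_cases a <;> fin_cases b <;> first | exact absurd rfl hab | skip
    · left
      show x j * 1 - x i * 1 = _
      ring
    · right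
      show x j * (-x i - 1) - x i * (-x j - 1) = _
      ring
    · right
      show 1 * x i - 1 * x j = _
      ring
    · left
      show 1 * (-x i - 1) - 1 * (-x j - 1) = _
      ring
    · left
      show (-x j - 1) * x i - (-x i - 1) * x j = _
      ring
    · right
      show (-x j - 1) * 1 - (-x i - 1) * 1 = _
      ring
  rcases key with h | h
  · rw [h]
  · rw [h, (av v).map_neg]

/-- the sum of the exponents -/
def Te (m : ℕ) : ℕ := ∑ i : Fin m, (i : ℕ)

theorem Te_eq (m : ℕ) : (Te m : ℝ) = m * (m - 1) / 2 := by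
  unfold Te
  rw [Fin.sum_univ_eq_sum_range (fun i => i) m]
  cases m with
  | zero => simp
  | succ n =>
    have h1 := Finset.sum_range_id_mul_two (n + 1)
    rw [Nat.add_sub_cancel] at h1
    have h2 : ((∑ i ∈ Finset.range (n + 1), i : ℕ) : ℝ) * 2 = (n + 1) * n := by exact_mod_cast h1
    have h3 : ((n + 1 : ℕ) : ℝ) = n + 1 := by push_cast; ring
    rw [h3]
    linarith

theorem Te_rev (m : ℕ) : ∑ i : Fin m, ((Fin.rev i : Fin m) : ℕ) = Te m := by
  unfold Te
  exact Equiv.sum_comp Fin.revPerm (fun i : Fin m => (i : ℕ))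

/-- the local inequality -/
theorem local_vdm (v : Pl K) {m : ℕ} (x : Fin m → K) (hx : ∀ i, Pt (x i)) (i0 : Fin m) (ε : ℝ)
    (hε : ∀ i l, |lg v (L l (x i)) - lg v (L l (x i0))| ≤ ε) (hD : Dd x ≠ 0) :
    lg v (Dd x) ≤ mt v * Real.log (kv m.factorial v) +
      (Te m : ℝ) * (∑ l, lg v (L l (x i0)) - mx v (x i0) + 2 * ε) := by
  have hmt := mt_pos v
  obtain ⟨l, hl⟩ := M_attained v (x i0)
  have hmx : mx v (x i0) = lg v (L l (x i0)) := by
    unfold mx lg
    rw [hl]
  -- the two other indices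
  set a : Fin 3 := l + 1 with ha
  set b : Fin 3 := l + 2 with hb
  have hab : a ≠ b := by
    rw [ha, hb]
    fin_cases l <;> decide
  have hsum : ∑ l', lg v (L l' (x i0)) = lg v (L l (x i0)) + lg v (L a (x i0)) +
      lg v (L b (x i0)) := by
    rw [Fin.sum_univ_three, ha, hb]
    fin_cases l
    · rfl
    · show _ = lg v (L 1 (x i0)) + lg v (L 2 (x i0)) + lg v (L 0 (x i0))
      ring
    · show _ = lg v (L 2 (x i0)) + lg v (L 0 (x i0)) + lg v (L 1 (x i0))
      ring
  set A : ℝ := Real.exp ((lg v (L a (x i0)) + ε) / mt v) with hA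
  set B : ℝ := Real.exp ((lg v (L b (x i0)) + ε) / mt v) with hB
  have hA0 : 0 < A := Real.exp_pos _
  have hB0 : 0 < B := Real.exp_pos _
  have hbd : ∀ (c : Fin 3) (i : Fin m), av v (L c (x i)) ≤
      Real.exp ((lg v (L c (x i0)) + ε) / mt v) := by
    intro c i
    have h0 : 0 < av v (L c (x i)) := (av v).pos (L_ne (hx i) c)
    rw [← Real.log_le_iff_le_exp h0, le_div_iff₀ hmt]
    have h1 := (abs_le.1 (hε i c)).2
    unfold lg at h1 ⊢
    linarith
  have hdet : av v ((Matrix.projVandermonde (fun i => L a (x i)) (fun i => L b (x i))).det) ≤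
      kv m.factorial v * (A ^ Te m * B ^ Te m) := by
    rw [Matrix.det_apply']
    have hcard : (Finset.univ : Finset (Equiv.Perm (Fin m))).card = m.factorial := by
      rw [Finset.card_univ, Fintype.card_perm, Fintype.card_fin]
    rw [← hcard]
    refine av_sum_le v _ _ _ (by positivity) fun σ _ => ?_
    have hs : av v (((Equiv.Perm.sign σ : ℤ) : K)) = 1 := by
      rcases Int.units_eq_one_or (Equiv.Perm.sign σ) with h | h
      · rw [h]
        simp
      · rw [h]
        simp
    rw [map_mul, hs, one_mul, map_prod]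
    have h1 : ∀ i : Fin m, av v (Matrix.projVandermonde (fun i => L a (x i))
        (fun i => L b (x i)) (σ i) i) ≤ A ^ (i : ℕ) * B ^ ((Fin.rev i : Fin m) : ℕ) := by
      intro i
      rw [Matrix.projVandermonde_apply, map_mul, map_pow, map_pow]
      exact mul_le_mul (pow_le_pow_left₀ ((av v).nonneg _) (hbd a _) _)
        (pow_le_pow_left₀ ((av v).nonneg _) (hbd b _) _) (pow_nonneg ((av v).nonneg _) _)
        (pow_nonneg hA0.le _)
    refine (Finset.prod_le_prod (fun i _ => (av v).nonneg _) fun i _ => h1 i).trans ?_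
    rw [Finset.prod_mul_distrib, Finset.prod_pow_eq_pow_sum, Finset.prod_pow_eq_pow_sum, Te_rev]
    exact le_of_eq rfl
  rw [det_av v x a b hab] at hdet
  have hD0 : 0 < av v (Dd x) := (av v).pos hD
  have hk := kv_pos (Nat.factorial_pos m) v
  have h2 := Real.log_le_log hD0 hdet
  rw [Real.log_mul hk.ne' (by positivity), Real.log_mul (by positivity) (by positivity),
    Real.log_pow, Real.log_pow, hA, hB, Real.log_exp, Real.log_exp] at h2
  have h3 := mul_le_mul_of_nonneg_left h2 hmt.le
  rw [hsum, hmx]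
  have h4 : mt v * ((Te m : ℝ) * ((lg v (L a (x i0)) + ε) / mt v) +
      (Te m : ℝ) * ((lg v (L b (x i0)) + ε) / mt v)) =
      (Te m : ℝ) * (lg v (L a (x i0)) + lg v (L b (x i0)) + 2 * ε) := by
    field_simp
    ring
  rw [mul_add, h4] at h3
  unfold lg at h3 ⊢
  linarith

theorem dK_pos : 0 < dK K := by
  unfold dK
  refine Finset.sum_pos (fun w _ => ?_) Finset.univ_nonempty
  exact_mod_cast InfinitePlace.mult_pos

/-- the global inequality -/
theorem global_vdm {V : Finset (Pr K)} {m : ℕ} (x : Fin m → K) (hinj : Function.Injective x)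
    (hx : ∀ i, Pt (x i)) (hV : ∀ i, sp (x i) ⊆ V) (i0 : Fin m) (δ : ℝ)
    (hδ : ∀ i, ∑ v ∈ Spl V, ∑ l : Fin 3, |lg v (L l (x i)) - lg v (L l (x i0))| ≤ δ) :
    (Te m : ℝ) * hgt (x i0) ≤ dK K * Real.log m.factorial + 2 * (Te m : ℝ) * (m * δ) := by
  classical
  have hD := Dd_ne hinj
  set V' : Finset (Pr K) := V ∪ (fv_support_finite hD).toFinset with hV'
  set ε : Pl K → ℝ := fun v => ∑ i : Fin m, ∑ l : Fin 3, |lg v (L l (x i)) - lg v (L l (x i0))|
    with hε
  have h1 : ∀ v ∈ Spl V', lg v (Dd x) ≤ mt v * Real.log (kv m.factorial v) +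
      (Te m : ℝ) * (∑ l, lg v (L l (x i0)) - mx v (x i0) + 2 * ε v) := by
    intro v _
    refine local_vdm v x hx i0 (ε v) (fun i l => ?_) hD
    have e1 : |lg v (L l (x i)) - lg v (L l (x i0))| ≤
        ∑ l : Fin 3, |lg v (L l (x i)) - lg v (L l (x i0))| :=
      Finset.single_le_sum (f := fun l => |lg v (L l (x i)) - lg v (L l (x i0))|)
        (fun _ _ => abs_nonneg _) (Finset.mem_univ l)
    refine e1.trans ?_
    exact Finset.single_le_sum (f := fun i => ∑ l : Fin 3, |lg v (L l (x i)) - lg v (L l (x i0))|)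
        (fun _ _ => Finset.sum_nonneg fun _ _ => abs_nonneg _) (Finset.mem_univ i)
  have h2 := Finset.sum_le_sum h1
  have hVV : V ⊆ V' := Finset.subset_union_left
  rw [sum_lg hD (fun v hv => by
      by_contra h
      exact hv (Finset.mem_union_right _ ((Set.Finite.mem_toFinset _).2 h))),
    Finset.sum_add_distrib, sum_kv, ← Finset.mul_sum, Finset.sum_add_distrib,
    Finset.sum_sub_distrib, ← Finset.mul_sum, hgt_eq (hx i0) ((hV i0).trans hVV),
    Finset.sum_comm] at h2
  have h3 : ∑ l : Fin 3, ∑ v ∈ Spl V', lg v (L l (x i0)) = 0 :=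
    Finset.sum_eq_zero fun l _ => sum_lgL (hx i0) ((hV i0).trans hVV) l
  have h4 : ∑ v ∈ Spl V', ε v ≤ m * δ := by
    have e1 : ∑ v ∈ Spl V', ε v = ∑ v ∈ Spl V, ε v := by
      symm
      refine Finset.sum_subset (Spl_mono hVV) ?_
      intro v _ hv
      rcases v with w | v
      · exact absurd (inl_mem_Spl _ w) hv
      · rw [inr_mem_Spl] at hv
        rw [hε]
        refine Finset.sum_eq_zero fun i _ => Finset.sum_eq_zero fun l _ => ?_
        rw [lg_eq_zero (hx i) (fun h => hv (hV i h)), lg_eq_zero (hx i0) (fun h => hv (hV i0 h)),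
          sub_zero, abs_zero]
    rw [e1, hε, Finset.sum_comm]
    refine (Finset.sum_le_sum fun i _ => hδ i).trans ?_
    rw [Finset.sum_const, Finset.card_univ, Fintype.card_fin, nsmul_eq_mul]
  rw [h3] at h2
  have h5 : (0 : ℝ) ≤ Te m := Nat.cast_nonneg _
  have h6 := mul_le_mul_of_nonneg_left h4 h5
  nlinarith

open Pool.Agent.N175.BG in
/-- BG/VDM -/
theorem vdm : S_VDM := by
  intro c hc
  -- the choice of `M`
  obtain ⟨m, hm2, hm⟩ : ∃ m : ℕ, 2 ≤ m ∧ Real.log m < c / 8 * (m - 1) := by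
    have h1 : Filter.Tendsto (fun x : ℝ => Real.log x / x) Filter.atTop (nhds 0) := by
      have := Real.isLittleO_log_id_atTop.tendsto_div_nhds_zero
      exact this
    have h2 : ∀ᶠ x : ℝ in Filter.atTop, Real.log x / x < c / 16 :=
      h1.eventually (gt_mem_nhds (by linarith))
    have h3 := (tendsto_natCast_atTop_atTop (R := ℝ)).eventually h2
    obtain ⟨m, hm, hm2⟩ := (h3.and (Filter.eventually_ge_atTop 2)).exists
    refine ⟨m, hm2, ?_⟩
    have hm0 : (2 : ℝ) ≤ m := by exact_mod_cast hm2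
    rw [div_lt_iff₀ (by linarith)] at hm
    nlinarith
  have hm0 : (2 : ℝ) ≤ m := by exact_mod_cast hm2
  refine ⟨m, c / (8 * m), by positivity, ?_⟩
  intro K _ _ V F hF hcl
  by_contra hcon
  push Not at hcon
  -- `m` points
  obtain ⟨G, hG, hGm⟩ := Finset.exists_subset_card_eq hcon.le
  set x : Fin m → K := fun i => ((G.equivFinOfCardEq hGm).symm i : K) with hx
  have hxG : ∀ i, x i ∈ F := fun i => hG ((G.equivFinOfCardEq hGm).symm i).2
  have hinj : Function.Injective x := fun i j h =>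
    (G.equivFinOfCardEq hGm).symm.injective (Subtype.ext h)
  have i0 : Fin m := ⟨0, by omega⟩
  have h1 := global_vdm x hinj (fun i => (hF _ (hxG i)).1) (fun i => (hF _ (hxG i)).2.1) i0
    (c / (8 * m) * dK K) (fun i => hcl _ (hxG i) _ (hxG i0))
  have h2 := (hF _ (hxG i0)).2.2
  have hd := dK_pos (K := K)
  have h3 : Real.log (m.factorial) ≤ m * Real.log m := by
    rw [← Real.log_pow]
    refine Real.log_le_log (by exact_mod_cast Nat.factorial_pos m) ?_
    exact_mod_cast Nat.factorial_le_pow m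
  rw [Te_eq] at h1
  have h4 : (m : ℝ) * (c / (8 * m) * dK K) = c / 8 * dK K := by
    field_simp
  rw [h4] at h1
  have hT : 0 < (m : ℝ) * (m - 1) := by nlinarith
  have h5 : (m : ℝ) * (m - 1) / 2 * (c * dK K) ≤ (m : ℝ) * (m - 1) / 2 * hgt (x i0) :=
    mul_le_mul_of_nonneg_left h2 (by linarith)
  have h6 : dK K * Real.log m.factorial ≤ dK K * (m * (c / 8 * (m - 1))) := by
    refine mul_le_mul_of_nonneg_left (h3.trans ?_) hd.le
    exact mul_le_mul_of_nonneg_left hm.le (by linarith)
  have h7 : 0 < (m : ℝ) * (m - 1) * (c * dK K) := by positivity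
  nlinarith

end Pool.Agent.N424.BG
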